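import Pool.Agent.R649.BT.Node
import Pool.Agent.R649.PD.Real

set_option autoImplicit false

/-!
# Gluing exteriors of knots with Nie's property (D)

Nie (On 1-bridge braids, satellite knots, the manifold v2503 and non-left-orderable surgeries and
fillings, 2020) defines property (D) for nontrivial knots `K` in `S³` and shows that surgeries on such
knots with slope at least `2g - 1` have non-left-orderable fundamental groups. Knots with property
(D) are, e.g., the closures of positive 1-bridge braids (torus knots, Berge-Gabai knots, the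
pretzel knot `P(-2,3,7)`), the L-space twisted torus knots and many L-space satellites.

We glue the exteriors of two knots `K₁`, `K₂` with property (D). Let `n_i = 2 g_i - 1`. The exterior of
`K_i` is Floer simple with L-space slopes `[n_i, ∞]`, and by the gluing theorem of Hanselman,
Rasmussen and Watson the glued manifold is an L-space if and only if every slope of the torus
is in the interior `(n_i, ∞)` of this interval for one of the two sides. We show: in this case
every homomorphism from the fundamental group to a left-orderable group is trivial.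

More generally, the exteriors of knots with property (D) may be glued to the boundary tori of
the pieces of the result `TreesOfPieces` (problem MP_3d425c_gt): exteriors of the Borromean rings,
products of the circle and spheres with holes, and the manifolds `Y` of alternating diagrams with
an encircled triple of strands.
-/

universe u

namespace Pool.Agent.Results.MP_9ae2f3_gt.GluedKnotExteriors

open Pool.Agent.R649.BT
open Pool.Agent.W705.Borr (Dom)

/-- A nontrivial group is left-orderable if it carries a strict total order that is invariant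
under left multiplication. -/
def LeftOrderable (G : Type*) [Group G] : Prop :=
  Nontrivial G ∧ ∃ lt : G → G → Prop, IsStrictTotalOrder G lt ∧
    ∀ a b c : G, lt a b ↔ lt (c * a) (c * b)

/-- The root-closed, conjugacy-closed submonoid generated by `S`. -/
inductive RootConj {G : Type} [Group G] (S : Set G) : G → Prop
  | base {g : G} : g ∈ S → RootConj S g
  | one : RootConj S 1
  | mul {g h : G} : RootConj S g → RootConj S h → RootConj S (g * h)
  | conj {g : G} (h : G) : RootConj S g → RootConj S (h * g * h⁻¹)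
  | root {g : G} (k : ℕ) : 1 ≤ k → RootConj S (g ^ k) → RootConj S g

/-- Nie's property (D) for a knot with group `G`, meridian `μ`, longitude `l` and `n = 2g - 1`. -/
structure PropertyD (G : Type) [Group G] (μ l : G) (n : ℤ) : Prop where
  countable : Countable G
  comm : Commute μ l
  /-- for every action on the real line, common fixed points of `μ` and `l` are global fixed
  points -/
  fixed : ∀ (ρ : G →* (ℝ ≃o ℝ)) (s : ℝ), ρ μ s = s → ρ l s = s → ∀ g, ρ g s = s
  mem : RootConj {μ ^ n * l, μ⁻¹} μ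

/-- The slope `p / q` is in the interior `(n, ∞)` of the interval of L-space slopes. -/
def Interior (n p q : ℤ) : Prop := (0 < q ∧ n * q < p) ∨ (q < 0 ∧ p < n * q)

/-- The fundamental group `G` of the manifold obtained from knot exteriors with groups `G₁`, `G₂` by
gluing the boundary tori: it is generated by the images of `G₁` and `G₂`, and the meridian and
the longitude of the first knot become `μ₂ ^ a * l₂ ^ b` and `μ₂ ^ c * l₂ ^ d`. -/
structure Gluing {G₁ G₂ : Type} {G : Type u} [Group G₁] [Group G₂] [Group G] (j₁ : G₁ →* G)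
    (j₂ : G₂ →* G) (μ₁ l₁ : G₁) (μ₂ l₂ : G₂) (a b c d : ℤ) : Prop where
  gen : j₁.range ⊔ j₂.range = ⊤
  mer : j₁ μ₁ = j₂ (μ₂ ^ a * l₂ ^ b)
  lon : j₁ l₁ = j₂ (μ₂ ^ c * l₂ ^ d)

/-- Every slope `p / q` of the first knot is in the interior of the interval of L-space slopes for
one of the two sides. -/
def Covering (n₁ n₂ a b c d : ℤ) : Prop :=
  ∀ p q : ℤ, (p, q) ≠ (0, 0) → Interior n₁ p q ∨ Interior n₂ (p * a + q * c) (p * b + q * d)

/-- The three kinds of inner pieces: the exterior of the Borromean rings, the product of the circle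
and a sphere with `k + 3` holes, and the manifold `Y` of an alternating diagram with an encircled
triple of strands (`Pool.Agent.R649.BT.Blocks`, `Pool.Agent.R649.BT.Alt`). For each boundary torus
`i` there is a basis `x i`, `e i`. -/
inductive IsPiece : Block → Prop
  | bor : IsPiece Block.bor
  | seif (k : ℕ) : IsPiece (Block.seif k)
  | alt (D : Alt.Diagram) : IsPiece (Block.alt D)

/-- `Tree G x e`: the group `G` of a manifold with one boundary torus with basis `x, e` that is
either the exterior of a knot with property (D), or a piece `K` with manifolds of this kind (with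
groups `N i`, for the tori `i ∈ S`) or solid tori (for `i ∉ S`) glued to the tori `i ≠ 0`. -/
inductive Tree : (G : Type) → [Group G] → G → G → Prop
  | knot {G : Type} [Group G] {μ l : G} {n : ℤ} (h : PropertyD G μ l n) : Tree G μ (μ ^ n * l)
  | piece {G : Type} [Group G] (K : Block) (hK : IsPiece K) (j : PresentedGroup K.rel →* G)
      (N : K.Tori → Type) [∀ i, Group (N i)] (js : ∀ i, N i →* G) (x e : ∀ i, N i)
      (S : Set K.Tori) (hS : ∀ i ∈ S, i ≠ 0 → Tree (N i) (x i) (e i))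
      (glue : ∀ i ∈ S, i ≠ 0 → ∃ A B C D : ℕ, 1 ≤ A ∧ 1 ≤ B ∧ 1 ≤ C ∧ 1 ≤ D ∧
        j (PresentedGroup.mk K.rel (K.x i)) = js i (x i ^ A * e i ^ B) ∧
        j (PresentedGroup.mk K.rel (K.e i)) = js i (x i ^ C * e i ^ D)⁻¹)
      (solid : ∀ i, i ∉ S → i ≠ 0 → ∃ p q : ℕ, 1 ≤ q ∧ ((∃ k, K = Block.seif k) → 1 ≤ p) ∧
        j (PresentedGroup.mk K.rel (K.x i)) ^ p * j (PresentedGroup.mk K.rel (K.e i)) ^ q = 1)
      (gen : j.range ⊔ ⨆ i ∈ {i | i ∈ S ∧ i ≠ 0}, (js i).range = ⊤) :
      Tree G (j (PresentedGroup.mk K.rel (K.x 0))) (j (PresentedGroup.mk K.rel (K.e 0)))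

/-- Every homomorphism from `G` to a left-orderable group is trivial, and `G` is not
left-orderable. -/
def NoOrders (G : Type u) [Group G] : Prop :=
  ¬ LeftOrderable G ∧
    ∀ (H : Type u) [Group H], LeftOrderable H → ∀ f : G →* H, ∀ g, f g = 1

section proof

theorem pow_lt {X : Type u} [LinearOrder X] {g : X ≃o X} {w : X} (h : g w < w) :
    ∀ k : ℕ, 1 ≤ k → (g ^ k) w < w := by
  intro k
  induction k with
  | zero => intro h0; omega
  | succ k ih =>
    intro _
    rw [pow_succ]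
    show (g ^ k) (g w) < w
    rcases Nat.eq_zero_or_pos k with h0 | h0
    · rw [h0, pow_zero]; exact h
    · exact ((g ^ k).lt_iff_lt.mpr h).trans (ih h0)

theorem lt_pow {X : Type u} [LinearOrder X] {g : X ≃o X} {w : X} (h : w < g w) :
    ∀ k : ℕ, 1 ≤ k → w < (g ^ k) w := by
  intro k
  induction k with
  | zero => intro h0; omega
  | succ k ih =>
    intro _
    rw [pow_succ]
    show w < (g ^ k) (g w)
    rcases Nat.eq_zero_or_pos k with h0 | h0
    · rw [h0, pow_zero]; exact h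
    · exact (ih h0).trans ((g ^ k).lt_iff_lt.mpr h)

section mem
variable {G : Type} [Group G] {X : Type u} [LinearOrder X] (ρ : G →* (X ≃o X)) {α β : X}

theorem inv_fix (hα : ∀ g, ρ g α = α) (hβ : ∀ g, ρ g β = β) (h : G) {w : X} (h1 : α < w)
    (h2 : w < β) : α < ρ h w ∧ ρ h w < β := by
  constructor
  · rw [← hα h]; exact (ρ h).lt_iff_lt.mpr h1
  · rw [← hβ h]; exact (ρ h).lt_iff_lt.mpr h2

theorem le_of_mem (hα : ∀ g, ρ g α = α) (hβ : ∀ g, ρ g β = β) {S : Set G}
    (hS : ∀ m ∈ S, ∀ w, α < w → w < β → ρ m w ≤ w) {m : G} (hm : RootConj S m) :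
    ∀ w, α < w → w < β → ρ m w ≤ w := by
  induction hm with
  | base h => exact hS _ h
  | one => intro w _ _; rw [map_one]; exact le_rfl
  | @mul g h _ _ ig ih =>
    intro w h1 h2
    rw [map_mul]
    exact ((ρ g).monotone (ih w h1 h2)).trans (ig w h1 h2)
  | @conj g h _ ig =>
    intro w h1 h2
    obtain ⟨h3, h4⟩ := inv_fix ρ hα hβ h⁻¹ h1 h2
    have h5 := (ρ h).monotone (ig _ h3 h4)
    rw [map_mul, map_mul]
    show ρ h (ρ g (ρ h⁻¹ w)) ≤ w
    refine h5.trans (le_of_eq ?_)
    rw [← RelIso.mul_apply, ← map_mul, mul_inv_cancel, map_one]; rfl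
  | @root g k hk _ ig =>
    intro w h1 h2
    by_contra hcon
    rw [not_le] at hcon
    have h3 := lt_pow hcon k hk
    rw [← map_pow] at h3
    exact absurd (ig w h1 h2) (not_le.mpr h3)

theorem ge_of_mem (hα : ∀ g, ρ g α = α) (hβ : ∀ g, ρ g β = β) {S : Set G}
    (hS : ∀ m ∈ S, ∀ w, α < w → w < β → w ≤ ρ m w) {m : G} (hm : RootConj S m) :
    ∀ w, α < w → w < β → w ≤ ρ m w := by
  induction hm with
  | base h => exact hS _ h
  | one => intro w _ _; rw [map_one]; exact le_rfl
  | @mul g h _ _ ig ih =>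
    intro w h1 h2
    rw [map_mul]
    exact (ig w h1 h2).trans ((ρ g).monotone (ih w h1 h2))
  | @conj g h _ ig =>
    intro w h1 h2
    obtain ⟨h3, h4⟩ := inv_fix ρ hα hβ h⁻¹ h1 h2
    have h5 := (ρ h).monotone (ig _ h3 h4)
    rw [map_mul, map_mul]
    show w ≤ ρ h (ρ g (ρ h⁻¹ w))
    refine le_trans (le_of_eq ?_) h5
    rw [← RelIso.mul_apply, ← map_mul, mul_inv_cancel, map_one]; rfl
  | @root g k hk _ ig =>
    intro w h1 h2
    by_contra hcon
    rw [not_le] at hcon
    have h3 := pow_lt hcon k hk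
    rw [← map_pow] at h3
    exact absurd (ig w h1 h2) (not_le.mpr h3)

end mem

section piece
variable {G : Type} [Group G] {μ l : G} {n : ℤ}

theorem PropertyD.piece (h : PropertyD G μ l n) : Piece.{u} G μ (μ⁻¹ * (μ ^ n * l)) := by
  have hc : Commute μ (μ ^ n * l) := ((Commute.refl μ).zpow_right n).mul_right h.comm
  -- common fixed points are global fixed points
  have hfix : ∀ (X : Type u) [CompleteLinearOrder X] (ρ : G →* (X ≃o X)) (p : X), ρ μ p = p →
      ρ l p = p → ∀ g, ρ g p = p := by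
    intro X _ ρ p h1 h2 g
    have := h.countable
    obtain ⟨ρ', s, hs⟩ := Pool.Agent.R649.PD.real_action ρ p
    exact (hs g).mp (h.fixed ρ' s ((hs μ).mpr h1) ((hs l).mpr h2) g)
  have hfix2 : ∀ (X : Type u) [CompleteLinearOrder X] (ρ : G →* (X ≃o X)) (p : X), ρ μ p = p →
      ρ (μ ^ n * l) p = p → ∀ g, ρ g p = p := by
    intro X _ ρ p h1 h2
    refine hfix X ρ p h1 ?_
    have h3 : ρ (μ ^ n) p = p := by
      rw [map_zpow]
      exact fix_zpow h1 n
    have h4 : ρ (μ ^ n) (ρ l p) = ρ (μ ^ n) p := by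
      rw [h3]
      rw [map_mul] at h2
      exact h2
    exact (ρ (μ ^ n)).injective h4
  have hμ : ∀ (X : Type u) [CompleteLinearOrder X] (ρ : G →* (X ≃o X)) (w : G) (v : X),
      ρ μ (ρ (μ⁻¹ * w) v) = ρ w v := by
    intro X _ ρ w v
    rw [← RelIso.mul_apply, ← map_mul, mul_inv_cancel_left]
  refine ⟨(Commute.refl _).inv_right.mul_right hc, fun X _ ρ p hx ha => ?_,
    fun X _ ρ hd g v => ?_⟩
  · refine hfix2 X ρ p hx ?_
    have := hμ X ρ (μ ^ n * l) p
    rw [ha, hx] at this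
    exact this.symm
  · have hcap : Cap (ρ μ) (ρ (μ ^ n * l)) := by
      have h1 := Cap.of_dom hd
      rwa [← map_mul, mul_inv_cancel_left] at h1
    by_contra hg
    have hv : ¬ ∀ g, ρ g v = v := fun hh => hg (hh g)
    set S : Set X := {p | p ≤ v ∧ ∀ g, ρ g p = p} with hS
    set T : Set X := {p | v ≤ p ∧ ∀ g, ρ g p = p} with hT
    have hα : ∀ g, ρ g (sSup S) = sSup S := fun g => by
      refine sSup_fix (ρ g) (fun w hw => ?_) (fun w hw => ?_)
      · rw [hw.2]; exact hw
      · rw [symm_fix (hw.2 g)]; exact hw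
    have hβ : ∀ g, ρ g (sInf T) = sInf T := fun g => by
      refine sInf_fix (ρ g) (fun w hw => ?_) (fun w hw => ?_)
      · rw [hw.2]; exact hw
      · rw [symm_fix (hw.2 g)]; exact hw
    have h1 : sSup S < v := by
      refine lt_of_le_of_ne (sSup_le fun w hw => hw.1) fun e => ?_
      rw [e] at hα; exact hv hα
    have h2 : v < sInf T := by
      refine lt_of_le_of_ne (le_sInf fun w hw => hw.1) fun e => ?_
      rw [← e] at hβ; exact hv hβ
    rcases trich (α := sSup S) (β := sInf T) (ρ μ) with hu | hu | ⟨w, w1, w2, w3⟩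
    · have h3 := le_of_mem ρ hα hβ (S := {μ ^ n * l, μ⁻¹}) (by
        rintro m (rfl | rfl) w w1 w2
        · exact hcap.up w (hu w w1 w2)
        · obtain ⟨w3, w4⟩ := inv_fix ρ hα hβ μ⁻¹ w1 w2
          have h5 := (hu _ w3 w4).le
          rw [← RelIso.mul_apply, ← map_mul, mul_inv_cancel, map_one] at h5
          exact h5) h.mem v h1 h2
      exact absurd (hu v h1 h2) (not_lt.mpr h3)
    · have h3 := ge_of_mem ρ hα hβ (S := {μ ^ n * l, μ⁻¹}) (by
        rintro m (rfl | rfl) w w1 w2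
        · exact hcap.down w (hu w w1 w2)
        · obtain ⟨w3, w4⟩ := inv_fix ρ hα hβ μ⁻¹ w1 w2
          have h5 := (hu _ w3 w4).le
          rw [← RelIso.mul_apply, ← map_mul, mul_inv_cancel, map_one] at h5
          exact h5) h.mem v h1 h2
      exact absurd (hu v h1 h2) (not_lt.mpr h3)
    · have h3 := hfix2 X ρ w w3 (hcap.fix w w3)
      rcases le_total w v with h4 | h4
      · exact absurd (le_sSup (show w ∈ S from ⟨h4, h3⟩)) (not_le.mpr w1)
      · exact absurd (sInf_le (show w ∈ T from ⟨h4, h3⟩)) (not_le.mpr w2)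

/-- Change of basis. -/
theorem word {x y : G} (h : Commute x y) (n p q : ℤ) :
    x ^ p * y ^ q = x ^ (p - n * q) * (x ^ n * y) ^ q := by
  rw [(h.zpow_left n).mul_zpow, ← mul_assoc, ← zpow_mul, ← zpow_add]
  congr 2
  ring

end piece

theorem scap_inv {X : Type u} [CompleteLinearOrder X] {x e : X ≃o X} (h : SCap x e) :
    SCap x⁻¹ e⁻¹ := by
  have a1 : ∀ g : X ≃o X, ∀ v, g (g⁻¹ v) = v := fun g v => g.apply_symm_apply v
  have hc : Commute x e := RelIso.ext h.comm
  refine ⟨fun v => ?_, fun v hv => ?_, fun v hv => ?_, fun v hv => ?_⟩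
  · rw [← RelIso.mul_apply, ← RelIso.mul_apply, (hc.inv_inv).eq]
  · -- `v < x⁻¹ v`, so `x v < v`
    have h1 : x v < v := by
      have := x.lt_iff_lt.mpr hv
      rwa [a1] at this
    have h2 := h.down v h1
    have h3 := (e⁻¹).lt_iff_lt.mpr h2
    have h4 : e⁻¹ (e v) = v := e.symm_apply_apply v
    rwa [h4] at h3
  · have h1 : v < x v := by
      have := x.lt_iff_lt.mpr hv
      rwa [a1] at this
    have h2 := h.up v h1
    have h3 := (e⁻¹).lt_iff_lt.mpr h2
    have h4 : e⁻¹ (e v) = v := e.symm_apply_apply v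
    rwa [h4] at h3
  · have h1 : x v = v := by
      have := congrArg x hv
      rw [a1] at this
      exact this.symm
    exact symm_fix (h.fix v h1)

/-- The condition in terms of the bases `μ, μ ^ n * l`. -/
theorem Covering.signs {n₁ n₂ a b c d : ℤ} (h : Covering n₁ n₂ a b c d) :
    (0 < a - n₂ * b ∧ 0 < b ∧ n₁ * a + c - n₂ * (n₁ * b + d) < 0 ∧ n₁ * b + d < 0) ∨
    (a - n₂ * b < 0 ∧ b < 0 ∧ 0 < n₁ * a + c - n₂ * (n₁ * b + d) ∧ 0 < n₁ * b + d) := by
  have h1 : Interior n₂ a b := by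
    rcases h 1 0 (by simp) with k | k
    · rcases k with ⟨k, _⟩ | ⟨k, _⟩ <;> exact absurd k (lt_irrefl _)
    · simpa using k
  have h2 : Interior n₂ (n₁ * a + c) (n₁ * b + d) := by
    rcases h n₁ 1 (by simp) with k | k
    · rcases k with ⟨_, k⟩ | ⟨k, _⟩
      · rw [mul_one] at k; exact absurd k (lt_irrefl _)
      · omega
    · simpa using k
  have h3 : ∀ s : ℤ, s = 1 ∨ s = -1 → 0 < s * b → 0 < s * (n₁ * b + d) → False := by
    intro s hs hb hd
    have hb0 : b ≠ 0 := by rintro rfl; simp at hb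
    have hs0 : s ≠ 0 := by rcases hs with rfl | rfl <;> norm_num
    rcases h (s * (n₁ * b + d) - s * b * n₁) (-(s * b)) (by
      intro e
      have e2 := congrArg Prod.snd e
      simp only [neg_eq_zero, mul_eq_zero] at e2
      rcases e2 with e2 | e2
      · exact hs0 e2
      · exact hb0 e2) with k | k
    · rcases k with ⟨k, _⟩ | ⟨_, k⟩
      · linarith
      · nlinarith
    · have e : (s * (n₁ * b + d) - s * b * n₁) * b + -(s * b) * d = 0 := by ring
      rw [e] at k
      rcases k with ⟨k, _⟩ | ⟨k, _⟩ <;> exact absurd k (lt_irrefl _)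
  rcases h1 with ⟨b1, a1⟩ | ⟨b1, a1⟩ <;> rcases h2 with ⟨d1, c1⟩ | ⟨d1, c1⟩
  · exact (h3 1 (Or.inl rfl) (by linarith) (by linarith)).elim
  · left; exact ⟨by linarith, b1, by linarith, d1⟩
  · right; exact ⟨by linarith, b1, by linarith, d1⟩
  · exact (h3 (-1) (Or.inr rfl) (by linarith) (by linarith)).elim

variable {G₁ G₂ : Type} {G : Type u} [Group G₁] [Group G₂] [Group G] {j₁ : G₁ →* G}
  {j₂ : G₂ →* G} {μ₁ l₁ : G₁} {μ₂ l₂ : G₂} {n₁ n₂ a b c d : ℤ}

/-- Every action on a complete linear order is trivial. -/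
theorem act_trivial (h₁ : PropertyD G₁ μ₁ l₁ n₁) (h₂ : PropertyD G₂ μ₂ l₂ n₂)
    (hg : Gluing j₁ j₂ μ₁ l₁ μ₂ l₂ a b c d) (hcov : Covering n₁ n₂ a b c d) {X : Type u}
    [CompleteLinearOrder X] (ρ : G →* (X ≃o X)) (g : G) (p : X) : ρ g p = p := by
  set x := μ₂ with hx
  set e := μ₂ ^ n₂ * l₂ with he
  have hc1 : Commute μ₁ (μ₁ ^ n₁ * l₁) := ((Commute.refl μ₁).zpow_right n₁).mul_right h₁.comm
  have hc2 : Commute x e := ((Commute.refl μ₂).zpow_right n₂).mul_right h₂.comm
  have hT : TameE.{u} G₂ x e := h₂.piece.tameE hc2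
  -- the words
  have w1 : j₁ μ₁ = j₂ (x ^ (a - n₂ * b) * e ^ b) := by
    rw [hg.mer, word h₂.comm n₂]
  have w2 : j₁ (μ₁ ^ n₁ * l₁) =
      j₂ (x ^ (n₁ * a + c - n₂ * (n₁ * b + d)) * e ^ (n₁ * b + d)) := by
    rw [← word h₂.comm n₂, map_mul, map_zpow, hg.mer, hg.lon, ← map_zpow, ← map_mul]
    congr 1
    have hcm : Commute (μ₂ ^ a) (l₂ ^ b) := h₂.comm.zpow_zpow a b
    rw [hcm.mul_zpow, ← zpow_mul, ← zpow_mul, mul_comm n₁ a, mul_comm n₁ b, zpow_add, zpow_add]
    have hcm2 : Commute (l₂ ^ (b * n₁)) (μ₂ ^ c) := (h₂.comm.zpow_zpow c (b * n₁)).symm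
    calc μ₂ ^ (a * n₁) * l₂ ^ (b * n₁) * (μ₂ ^ c * l₂ ^ d)
        = μ₂ ^ (a * n₁) * (l₂ ^ (b * n₁) * μ₂ ^ c) * l₂ ^ d := by simp only [mul_assoc]
      _ = μ₂ ^ (a * n₁) * (μ₂ ^ c * l₂ ^ (b * n₁)) * l₂ ^ d := by rw [hcm2.eq]
      _ = μ₂ ^ (a * n₁) * μ₂ ^ c * (l₂ ^ (b * n₁) * l₂ ^ d) := by simp only [mul_assoc]
  have hinv : ∀ A B : ℕ, (x ^ A * e ^ B)⁻¹ = x ^ (-(A : ℤ)) * e ^ (-(B : ℤ)) := by
    intro A B
    rw [(hc2.pow_pow A B).eq, mul_inv_rev, zpow_neg, zpow_neg, zpow_natCast, zpow_natCast]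
  have key : SCap (ρ (j₁ μ₁)) (ρ (j₁ (μ₁ ^ n₁ * l₁))) ∧
      ∀ p, ρ (j₁ μ₁) p = p → ∀ g, ρ (j₂ g) p = p := by
    rcases hcov.signs with ⟨hA, hB, hC, hD⟩ | ⟨hA, hB, hC, hD⟩
    · obtain ⟨A, eA⟩ := Int.eq_ofNat_of_zero_le hA.le
      obtain ⟨B, eB⟩ := Int.eq_ofNat_of_zero_le hB.le
      obtain ⟨C, eC⟩ := Int.eq_ofNat_of_zero_le (neg_nonneg.mpr hC.le)
      obtain ⟨D, eD⟩ := Int.eq_ofNat_of_zero_le (neg_nonneg.mpr hD.le)
      have eC' := neg_eq_iff_eq_neg.mp eC
      have eD' := neg_eq_iff_eq_neg.mp eD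
      have u1 : j₁ μ₁ = j₂ (x ^ A * e ^ B) := by
        rw [w1, eA, eB, zpow_natCast, zpow_natCast]
      have u2 : j₁ (μ₁ ^ n₁ * l₁) = j₂ (x ^ C * e ^ D)⁻¹ := by
        rw [w2, eC', eD', hinv]
      rw [u1, u2]
      exact ⟨hT.scap X (ρ.comp j₂) A B C D (by omega) (by omega) (by omega) (by omega),
        hT.fix X (ρ.comp j₂) A B (by omega) (by omega)⟩
    · obtain ⟨A, eA⟩ := Int.eq_ofNat_of_zero_le (neg_nonneg.mpr hA.le)
      obtain ⟨B, eB⟩ := Int.eq_ofNat_of_zero_le (neg_nonneg.mpr hB.le)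
      obtain ⟨C, eC⟩ := Int.eq_ofNat_of_zero_le hC.le
      obtain ⟨D, eD⟩ := Int.eq_ofNat_of_zero_le hD.le
      have eA' := neg_eq_iff_eq_neg.mp eA
      have eB' := neg_eq_iff_eq_neg.mp eB
      have u1 : j₁ μ₁ = j₂ (x ^ A * e ^ B)⁻¹ := by
        rw [w1, eA', eB', hinv]
      have u2 : j₁ (μ₁ ^ n₁ * l₁) = j₂ (x ^ C * e ^ D) := by
        rw [w2, eC, eD, zpow_natCast, zpow_natCast]
      rw [u1, u2]
      refine ⟨?_, fun p hp => ?_⟩
      · have h5 := scap_inv
          (hT.scap X (ρ.comp j₂) A B C D (by omega) (by omega) (by omega) (by omega))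
        rw [← map_inv, ← map_inv, inv_inv] at h5
        exact h5
      · refine hT.fix X (ρ.comp j₂) A B (by omega) (by omega) p ?_
        rw [map_inv, map_inv] at hp
        have h6 := congrArg (ρ (j₂ (x ^ A * e ^ B))) hp
        have h7 : ρ (j₂ (x ^ A * e ^ B)) ((ρ (j₂ (x ^ A * e ^ B)))⁻¹ p) = p :=
          (ρ (j₂ (x ^ A * e ^ B))).apply_symm_apply p
        rw [h7] at h6
        exact h6.symm
  have t1 : ∀ g p, ρ (j₁ g) p = p := by
    refine (h₁.piece.{u}).closed X (ρ.comp j₁) ?_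
    have h5 := key.1.cap.dom
    rw [← map_inv, ← map_mul, ← map_inv, ← map_mul] at h5
    exact h5
  have t2 : ∀ g p, ρ (j₂ g) p = p := fun g p => key.2 p (t1 μ₁ p) g
  have hle : (⊤ : Subgroup G) ≤ (MulAction.stabilizer (X ≃o X) p).comap ρ := by
    rw [← hg.gen, sup_le_iff]
    constructor
    · rintro _ ⟨g, rfl⟩; exact t1 g p
    · rintro _ ⟨g, rfl⟩; exact t2 g p
  exact hle (Subgroup.mem_top g)

/-- The properties of the pieces. -/
theorem IsPiece.ok {K : Block} (h : IsPiece K) :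
    BlockOK.{u} K.rel K.x K.e (∃ k, K = Block.seif k) := by
  cases h with
  | bor =>
    have h := BorOK.ok.{u}
    exact ⟨h.comm, h.opn, fun X _ ρ h0 hc _ => h.closed X ρ h0 hc (fun hf => hf.elim)⟩
  | seif k =>
    have h := SeifOK.ok.{u} k
    exact ⟨h.comm, h.opn, fun X _ ρ h0 hc hs => h.closed X ρ h0 hc (fun _ => hs ⟨k, rfl⟩)⟩
  | alt D =>
    have h := AltOK.ok.{u} D
    exact ⟨h.comm, h.opn, fun X _ ρ h0 hc _ => h.closed X ρ h0 hc (fun hf => hf.elim)⟩

theorem Tree.piece' {G : Type} [Group G] {x e : G} (h : Tree G x e) :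
    Commute x e ∧ Piece.{u} G x (x⁻¹ * e) := by
  induction h with
  | @knot G _ μ l n h => exact ⟨((Commute.refl μ).zpow_right n).mul_right h.comm, h.piece⟩
  | @piece G _ K hK j N _ js x e S hS glue solid gen ih =>
    have hb := hK.ok.{u}
    have hcm : ∀ i, Commute (j (PresentedGroup.mk K.rel (K.x i)))
        (j (PresentedGroup.mk K.rel (K.e i))) := fun i => (hb.comm i).map j
    have caps : ∀ (X : Type u) [CompleteLinearOrder X] (ρ : G →* (X ≃o X)) (i : K.Tori), i ≠ 0 →
        Cap (ρ (j (PresentedGroup.mk K.rel (K.x i)))) (ρ (j (PresentedGroup.mk K.rel (K.e i)))) ∧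
        ((∃ k, K = Block.seif k) → SCap (ρ (j (PresentedGroup.mk K.rel (K.x i))))
          (ρ (j (PresentedGroup.mk K.rel (K.e i))))) ∧
        (i ∈ S → ∀ p, ρ (j (PresentedGroup.mk K.rel (K.x i))) p = p →
          ∀ g, ρ (js i g) p = p) := by
      intro X _ ρ i h0
      by_cases hi : i ∈ S
      · obtain ⟨A, B, C, D, hA, hB, hC, hD, g1, g2⟩ := glue i hi h0
        obtain ⟨k1, k2⟩ := ih i hi h0
        have hT : TameE.{u} (N i) (x i) (e i) := k2.tameE k1
        have h3 := hT.scap X (ρ.comp (js i)) A B C D hA hB hC hD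
        rw [g1, g2]
        exact ⟨h3.cap, fun _ => h3, fun _ p hp g =>
          hT.fix X (ρ.comp (js i)) A B hA hB p hp g⟩
      · obtain ⟨p, q, hq, hp, hr⟩ := solid i hi h0
        have hr' := congrArg ρ hr
        rw [map_mul, map_pow, map_pow, map_one] at hr'
        obtain ⟨c1, c2⟩ := cap_solid ((hcm i).map ρ) hq hr'
        exact ⟨c1, fun hk => c2 (hp hk), fun hi' => absurd hi' hi⟩
    have hgen : ∀ (X : Type u) [CompleteLinearOrder X] (ρ : G →* (X ≃o X)) (p : X),
        (∀ g, ρ (j g) p = p) → ∀ g, ρ g p = p := by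
      intro X _ ρ p hp g
      have hle : (⊤ : Subgroup G) ≤ (MulAction.stabilizer (X ≃o X) p).comap ρ := by
        rw [← gen, sup_le_iff]
        refine ⟨?_, iSup₂_le fun i hi => ?_⟩
        · rintro _ ⟨g, rfl⟩; exact hp g
        · rintro _ ⟨g, rfl⟩; exact (caps X ρ i hi.2).2.2 hi.1 p (hp _) g
      exact hle (Subgroup.mem_top g)
    refine ⟨hcm 0, (Commute.refl _).inv_right.mul_right (hcm 0), fun X _ ρ p hx ha => ?_,
      fun X _ ρ hd g p => ?_⟩
    · refine hgen X ρ p (hb.opn X (ρ.comp j) (fun i hi => (caps X ρ i hi).1) p hx ?_)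
      rw [map_mul, map_inv] at ha
      have h2 := congrArg (ρ (j (PresentedGroup.mk K.rel (K.x 0)))) ha
      have h3 : ρ (j (PresentedGroup.mk K.rel (K.x 0)))
          ((ρ (j (PresentedGroup.mk K.rel (K.x 0))))⁻¹
            (ρ (j (PresentedGroup.mk K.rel (K.e 0))) p)) =
          ρ (j (PresentedGroup.mk K.rel (K.e 0))) p :=
        (ρ (j (PresentedGroup.mk K.rel (K.x 0)))).apply_symm_apply _
      rw [RelIso.mul_apply, h3, hx] at h2
      exact h2
    · refine hgen X ρ p (fun g => ?_) g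
      have h0 := Cap.of_dom hd
      rw [← map_mul, mul_inv_cancel_left] at h0
      exact hb.closed X (ρ.comp j) h0 (fun i hi => (caps X ρ i hi).1)
        (fun h i hi => (caps X ρ i hi).2.1 h) g p

theorem act_trivial' {G₁ N : Type} {G : Type u} [Group G₁] [Group N] [Group G] {μ l : G₁} {n : ℤ}
    (h₁ : PropertyD G₁ μ l n) {x e : N} (hN : Tree N x e) {j₁ : G₁ →* G} {j₂ : N →* G}
    (hgen : j₁.range ⊔ j₂.range = ⊤) {A B C D : ℕ} (hA : 1 ≤ A) (hB : 1 ≤ B) (hC : 1 ≤ C)
    (hD : 1 ≤ D) (g1 : j₁ μ = j₂ (x ^ A * e ^ B)) (g2 : j₁ (μ ^ n * l) = j₂ (x ^ C * e ^ D)⁻¹)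
    {X : Type u} [CompleteLinearOrder X] (ρ : G →* (X ≃o X)) (g : G) (p : X) : ρ g p = p := by
  obtain ⟨k1, k2⟩ := hN.piece'.{u}
  have hT : TameE.{u} N x e := k2.tameE k1
  have h3 := hT.scap X (ρ.comp j₂) A B C D hA hB hC hD
  have t1 : ∀ g p, ρ (j₁ g) p = p := by
    refine (h₁.piece.{u}).closed X (ρ.comp j₁) ?_
    have h5 : Cap (ρ (j₁ μ)) (ρ (j₁ (μ ^ n * l))) := by rw [g1, g2]; exact h3.cap
    have h6 := h5.dom
    rw [← map_inv, ← map_mul, ← map_inv, ← map_mul] at h6
    exact h6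
  have t2 : ∀ g p, ρ (j₂ g) p = p := by
    intro g p
    refine hT.fix X (ρ.comp j₂) A B hA hB p ?_ g
    have h7 := t1 μ p
    rw [g1] at h7
    exact h7
  have hle : (⊤ : Subgroup G) ≤ (MulAction.stabilizer (X ≃o X) p).comap ρ := by
    rw [← hgen, sup_le_iff]
    constructor
    · rintro _ ⟨g, rfl⟩; exact t1 g p
    · rintro _ ⟨g, rfl⟩; exact t2 g p
  exact hle (Subgroup.mem_top g)

open Pool.Agent.W705.Borr in
/-- A group all of whose actions on complete linear orders are trivial. -/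
theorem noOrders {G : Type u} [Group G] (h : ∀ (X : Type u) [CompleteLinearOrder X]
    (ρ : G →* (X ≃o X)) (g : G) (p : X), ρ g p = p) : NoOrders G := by
  have key : ∀ (H : Type u) [Group H], LeftOrderable H → ∀ f : G →* H, ∀ g, f g = 1 := by
    classical
    intro H _ hH f g
    obtain ⟨_, lt, hlt, hinv⟩ := hH
    let _ : LinearOrder H := linearOrderOfSTO lt
    have hinv' : ∀ a b c : H, a ≤ b ↔ c * a ≤ c * b := by
      intro a b c
      show (a = b ∨ lt a b) ↔ (c * a = c * b ∨ lt (c * a) (c * b))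
      rw [mul_right_inj, ← hinv]
    let α : H →* (LowerSet H ≃o LowerSet H) :=
      { toFun := fun g => act hinv' g
        map_one' := OrderIso.ext (funext fun v => act_one hinv' v)
        map_mul' := fun g h => OrderIso.ext (funext fun v => act_mul hinv' g h v) }
    exact eq_one_of_act hinv' _ fun v => h _ (α.comp f) g v
  refine ⟨fun hG => ?_, key⟩
  obtain ⟨a', b', hab⟩ := hG.1
  have k1 := key G hG (MonoidHom.id _) a'
  have k2 := key G hG (MonoidHom.id _) b'
  simp only [MonoidHom.id_apply] at k1 k2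
  exact hab (by rw [k1, k2])

end proof

/-- (1) Let `G` be the fundamental group of the manifold obtained by gluing the exteriors of two
knots with property (D), such that every slope is in the interior of the interval of L-space slopes
for one of the two sides. Then every homomorphism from `G` to a left-orderable group is trivial, and
`G` is not left-orderable. (2) The same if the exterior of a knot with property (D) is glued to a
manifold of the class `Tree`. -/
theorem result :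
    (∀ (G₁ G₂ : Type) (G : Type u) [Group G₁] [Group G₂] [Group G] (j₁ : G₁ →* G) (j₂ : G₂ →* G)
      (μ₁ l₁ : G₁) (μ₂ l₂ : G₂) (n₁ n₂ a b c d : ℤ),
      PropertyD G₁ μ₁ l₁ n₁ → PropertyD G₂ μ₂ l₂ n₂ → Gluing j₁ j₂ μ₁ l₁ μ₂ l₂ a b c d →
        Covering n₁ n₂ a b c d → NoOrders G) ∧
    (∀ (G₁ N : Type) (G : Type u) [Group G₁] [Group N] [Group G] (j₁ : G₁ →* G) (j₂ : N →* G)
      (μ l : G₁) (x e : N) (n : ℤ) (A B C D : ℕ),
      PropertyD G₁ μ l n → Tree N x e → j₁.range ⊔ j₂.range = ⊤ →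
        1 ≤ A → 1 ≤ B → 1 ≤ C → 1 ≤ D → j₁ μ = j₂ (x ^ A * e ^ B) →
          j₁ (μ ^ n * l) = j₂ (x ^ C * e ^ D)⁻¹ → NoOrders G) :=
  ⟨fun _ _ _ _ _ _ _ _ _ _ _ _ _ _ _ _ _ _ h₁ h₂ hg hcov =>
      noOrders fun _ _ ρ g p => act_trivial h₁ h₂ hg hcov ρ g p,
    fun _ _ _ _ _ _ _ _ _ _ _ _ _ _ _ _ _ h₁ hN hgen hA hB hC hD g1 g2 =>
      noOrders fun _ _ ρ g p => act_trivial' h₁ hN hgen hA hB hC hD g1 g2 ρ g p⟩

end Pool.Agent.Results.MP_9ae2f3_gt.GluedKnotExteriors
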