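import Pool.Agent.R649.BT.Piece

set_option autoImplicit false

/-!
# Manifolds glued from exteriors of the Borromean rings

## The link

We use the standard diagram of the Borromean rings by three round circles `0, 1, 2`, any two of
which meet in one point inside and one point outside the third circle; circle `i + 2` passes over
circle `i` at both crossings. `arc i false` is the meridian of the arc of circle `i` through its
outer crossing with circle `i + 1`, and `arc i true` the one of the arc through its inner crossing
with circle `i + 1`. The exterior of the Borromean rings is hyperbolic.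

## The manifolds

A closed manifold is built from the exterior of the Borromean rings by gluing to each boundary torus
either a solid torus (`Filling.solid p q`, slope `p / q`) or the boundary torus of component `0` of
the exterior of another copy of the Borromean rings (`Filling.piece a b c d att`); in the second
case the meridian and the longitude of the component become `μ ^ a * λ ^ b` and `μ ^ c * λ ^ d`,
where `μ`, `λ` are the meridian and the longitude of component `0` of the other link, and the other
components `i ≠ 0` of that link are filled by `att i` in the same way.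

The conditions: all slopes of solid tori are at most `-1`, and all gluing maps carry the slopes
`s ≥ -1` and `∞` of the piece to slopes smaller than `-1`. (These are the slopes for which the
result is an L-space. The case of slopes `≥ 1` is the mirror image: the Borromean rings are
amphicheiral.)

## The proof

Let the group act on a complete linear order by order automorphisms. Consider the exterior of the
Borromean rings with two of the components capped. The main point is that a common fixed point of
the meridian and the longitude of the third component is a global fixed point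
(`Pool.Agent.R649.BT.ofix`). Between two global fixed points the pair (meridian, longitude) then
acts without common fixed points, so that there is a well defined slope, and this slope does not
lie in the interval of slopes for which the closed manifold has no actions.
-/

universe u

namespace Pool.Agent.Results.MP_9ae2f3_gt.TreesOfBorromeanRings

/-- A nontrivial group is left-orderable if it carries a strict total order that is invariant
under left multiplication. -/
def LeftOrderable (G : Type*) [Group G] : Prop :=
  Nontrivial G ∧ ∃ lt : G → G → Prop, IsStrictTotalOrder G lt ∧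
    ∀ a b c : G, lt a b ↔ lt (c * a) (c * b)

/-- What is glued to a boundary torus of the exterior of the Borromean rings. The value `att 0` is
not used. -/
inductive Filling : Type
  | solid (p q : ℤ) : Filling
  | piece (a b c d : ℤ) (att : Fin 3 → Filling) : Filling

/-- A group presentation with two marked words (the meridian and the longitude of a boundary
torus). -/
structure Pres where
  /-- the generators -/
  gen : Type
  /-- the relators -/
  rel : Set (FreeGroup gen)
  /-- the meridian -/
  mer : FreeGroup gen
  /-- the longitude -/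
  lon : FreeGroup gen

section link
variable {S : Set (Fin 3)} {P : Fin 3 → Pres}

/-- The generators: two for each component of the link and those of `P i` for `i ∈ S`. -/
abbrev LGen (S : Set (Fin 3)) (P : Fin 3 → Pres) : Type :=
  (Fin 3 × Bool) ⊕ (Σ i : S, (P i).gen)

/-- The meridians of the two arcs of circle `i`. -/
def arc (i : Fin 3) (b : Bool) : FreeGroup (LGen S P) := FreeGroup.of (Sum.inl (i, b))

/-- The relator of the crossing of circle `i` with the inner arc of circle `i + 2`. -/
def inner (i : Fin 3) : FreeGroup (LGen S P) :=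
  (arc (i + 2) true)⁻¹ * arc i false * arc (i + 2) true * (arc i true)⁻¹

/-- The relator of the crossing of circle `i` with the outer arc of circle `i + 2`. -/
def outer (i : Fin 3) : FreeGroup (LGen S P) :=
  arc (i + 2) false * arc i true * (arc (i + 2) false)⁻¹ * (arc i false)⁻¹

/-- The (preferred, 0-framed) longitude of circle `i` that starts on the arc `arc i false`; it
passes under the inner and then under the outer arc of circle `i + 2`, with opposite signs. -/
def longitude (i : Fin 3) : FreeGroup (LGen S P) :=
  arc (i + 2) true * (arc (i + 2) false)⁻¹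

/-- The words in the generators of `P i`. -/
def incl (i : S) : FreeGroup (P i).gen →* FreeGroup (LGen S P) :=
  FreeGroup.map fun g => Sum.inr ⟨i, g⟩

end link

/-- The relators of the gluing along a torus with meridian `x` and longitude `l`; `μ` and `l'`
are the meridian and the longitude of the other side. -/
def glue {F : Type} [Group F] (x l μ l' : F) : Filling → Set F
  | .solid p q => {x ^ p * l ^ q}
  | .piece a b c d _ => {x * (μ ^ a * l' ^ b)⁻¹, l * (μ ^ c * l' ^ d)⁻¹}

/-- The presentation of the fundamental group of the exterior of the Borromean rings with manifolds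
with presentations `P i` glued to the components `i ∈ S` as described by `att i`. The marked
words are the meridian and the longitude of component `0`. -/
def build (S : Set (Fin 3)) (P : Fin 3 → Pres) (att : Fin 3 → Filling) : Pres where
  gen := LGen S P
  rel := Set.range inner ∪ Set.range outer ∪
    ⋃ i : S, glue (arc i false) (longitude i) (incl i (P i).mer) (incl i (P i).lon) (att i) ∪
      incl i '' (P i).rel
  mer := arc 0 false
  lon := longitude 0

/-- The presentation for a filling: nothing for a solid torus; for a piece, the exterior of the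
Borromean rings with the fillings `att i` of the components `i ≠ 0`. -/
def Filling.pres : Filling → Pres
  | .solid _ _ => ⟨Empty, ∅, 1, 1⟩
  | .piece _ _ _ _ att => build {i | i ≠ 0} (fun i => (att i).pres) att

/-- The fundamental group of the closed manifold obtained from the exterior of the Borromean rings
with the fillings `att i` of all components. -/
abbrev ClosedGroup (att : Fin 3 → Filling) : Type :=
  PresentedGroup (build Set.univ (fun i => (att i).pres) att).rel

/-- The gluing map given by `a, b, c, d` is a homeomorphism of the torus that carries the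
slopes `s ≥ -1` and `∞` of the piece to slopes smaller than `-1`: the slope `s` goes to
`(d s - c) / (a - b s)` and `∞` to `-d / b`. -/
def Gluing (a b c d : ℤ) : Prop :=
  |a * d - b * c| = 1 ∧ (b ≠ 0 ∧ -(d : ℚ) / b < -1) ∧
    ∀ s : ℚ, -1 ≤ s → (d * s - c) / (a - b * s) < -1

/-- The conditions on a filling. -/
def Filling.Good : Filling → Prop
  | .solid p q => 1 ≤ q ∧ (p : ℚ) / q ≤ -1
  | .piece a b c d att => Gluing a b c d ∧ ∀ i, i ≠ 0 → (att i).Good

section proof

open Pool.Agent.R649.BT
open Pool.Agent.W705.Borr (Dom)

theorem Gluing.good {a b c d : ℤ} (h : Gluing a b c d) : Good a (-b) (-c) d := by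
  obtain ⟨_, ⟨hb, h1⟩, h2⟩ := h
  have hd : ∀ s : ℚ, -1 ≤ s → (a : ℚ) - b * s ≠ 0 := by
    intro s hs h0
    have := h2 s hs
    rw [h0, div_zero] at this
    linarith
  have h3 := h2 (-1) le_rfl
  have hbq : (b : ℚ) ≠ 0 := by exact_mod_cast hb
  -- `a / b < -1`
  have hab : (a : ℚ) / b < -1 := by
    by_contra hcon
    rw [not_lt] at hcon
    exact hd _ hcon (by field_simp; ring)
  rcases lt_or_gt_of_ne hb with h0 | h0
  · left
    have hb' : (b : ℚ) < 0 := by exact_mod_cast h0
    rw [div_lt_iff_of_neg hb'] at h1 hab
    have k1 : -b < a := by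
      have : (-b : ℚ) < a := by linarith
      exact_mod_cast this
    have k2 : d < b := by
      have : (d : ℚ) < b := by linarith
      exact_mod_cast this
    have k3 : (0 : ℚ) < a - b * (-1) := by
      have : (-b : ℚ) < a := by exact_mod_cast k1
      linarith
    rw [div_lt_iff₀ k3] at h3
    have k4 : a - c < d - b := by
      have : (a : ℚ) - c < d - b := by linarith
      exact_mod_cast this
    refine ⟨by omega, by omega, by omega, by omega⟩
  · right
    have hb' : (0 : ℚ) < b := by exact_mod_cast h0
    rw [div_lt_iff₀ hb'] at h1 hab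
    have k1 : a < -b := by
      have : (a : ℚ) < -b := by linarith
      exact_mod_cast this
    have k2 : b < d := by
      have : (b : ℚ) < d := by linarith
      exact_mod_cast this
    have k3 : (a : ℚ) - b * (-1) < 0 := by
      have : (a : ℚ) < -b := by exact_mod_cast k1
      linarith
    rw [div_lt_iff_of_neg k3] at h3
    have k4 : d - b < a - c := by
      have : (d : ℚ) - b < a - c := by linarith
      exact_mod_cast this
    refine ⟨by omega, by omega, by omega, by omega⟩

theorem slope {p q : ℤ} (hq : 1 ≤ q) (h : (p : ℚ) / q ≤ -1) : q ≤ -p := by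
  have q0 : (0 : ℚ) < q := by exact_mod_cast (by omega : (0 : ℤ) < q)
  rw [div_le_iff₀ q0] at h
  have : (q : ℚ) ≤ -p := by linarith
  exact_mod_cast this

/-- What is known about a filling. -/
def Known (K : Filling) (P : Pres) : Prop :=
  match K with
  | .solid p q => (1 ≤ q ∧ q ≤ -p) ∧ IsEmpty P.gen
  | .piece a b c d _ => Good a (-b) (-c) d ∧
      Tame.{u} (PresentedGroup P.rel) (PresentedGroup.mk P.rel P.mer)⁻¹
        (PresentedGroup.mk P.rel P.lon)

variable {S : Set (Fin 3)} {P : Fin 3 → Pres} {att : Fin 3 → Filling}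

/-- The class of a word. -/
abbrev cl (S : Set (Fin 3)) (P : Fin 3 → Pres) (att : Fin 3 → Filling) :
    FreeGroup (LGen S P) →* PresentedGroup (build S P att).rel :=
  PresentedGroup.mk (build S P att).rel

theorem cl_one {w : FreeGroup (LGen S P)} (hw : w ∈ (build S P att).rel) :
    cl S P att w = 1 := PresentedGroup.one_of_mem hw

theorem cl_inner (i : Fin 3) : cl S P att (inner i) = 1 :=
  cl_one (Or.inl (Or.inl ⟨i, rfl⟩))

theorem cl_outer (i : Fin 3) : cl S P att (outer i) = 1 :=
  cl_one (Or.inl (Or.inr ⟨i, rfl⟩))

theorem cl_glue (i : S) {w : FreeGroup (LGen S P)}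
    (hw : w ∈ glue (arc i false) (longitude i) (incl i (P i).mer) (incl i (P i).lon) (att i)) :
    cl S P att w = 1 :=
  cl_one (Or.inr (Set.mem_iUnion.mpr ⟨i, Or.inl hw⟩))

theorem cl_rel (i : S) {w : FreeGroup (P i).gen} (hw : w ∈ (P i).rel) :
    cl S P att (incl i w) = 1 :=
  cl_one (Or.inr (Set.mem_iUnion.mpr ⟨i, Or.inr ⟨w, hw, rfl⟩⟩))

/-- The homomorphism from the group of a piece. -/
def iota (att : Fin 3 → Filling) (i : S) :
    PresentedGroup (P i).rel →* PresentedGroup (build S P att).rel :=
  PresentedGroup.toGroup (f := fun g => cl S P att (FreeGroup.of (Sum.inr ⟨i, g⟩))) (by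
    intro r hr
    have h1 : FreeGroup.lift (fun g => cl S P att (FreeGroup.of (Sum.inr ⟨i, g⟩))) =
        (cl S P att).comp (incl i) := by
      apply FreeGroup.ext_hom
      intro g
      rw [FreeGroup.lift_apply_of]
      rfl
    rw [h1]
    exact cl_rel i hr)

theorem iota_mk (i : S) (w : FreeGroup (P i).gen) :
    iota att i (PresentedGroup.mk (P i).rel w) = cl S P att (incl i w) := by
  have h1 : (iota att i).comp (PresentedGroup.mk (P i).rel) =
      (cl S P att).comp (incl i) := by
    apply FreeGroup.ext_hom
    intro g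
    show iota att i (PresentedGroup.of g) = _
    rw [iota, PresentedGroup.toGroup.of]
    rfl
  exact DFunLike.congr_fun h1 w

/-- The class of the inner arc of circle `i`. -/
def xx (S : Set (Fin 3)) (P : Fin 3 → Pres) (att : Fin 3 → Filling) (i : Fin 3) :
    PresentedGroup (build S P att).rel := cl S P att (arc i true)

/-- The conjugate of the longitude that commutes with `xx i`. -/
def aa (S : Set (Fin 3)) (P : Fin 3 → Pres) (att : Fin 3 → Filling) (i : Fin 3) :
    PresentedGroup (build S P att).rel :=
  xx S P att (i + 1) * (xx S P att (i + 2))⁻¹ * (xx S P att (i + 1))⁻¹ * xx S P att (i + 2)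

theorem mer_eq (i : Fin 3) : cl S P att (arc i false) =
    xx S P att (i + 2) * xx S P att i * (xx S P att (i + 2))⁻¹ := by
  have h := cl_inner (S := S) (P := P) (att := att) i
  unfold inner at h
  rw [map_mul, map_mul, map_mul, map_inv, map_inv, mul_inv_eq_one] at h
  show _ = cl S P att (arc (i + 2) true) * cl S P att (arc i true) *
    (cl S P att (arc (i + 2) true))⁻¹
  rw [← h]; group

theorem idx (i : Fin 3) : i + 2 + 2 = i + 1 := by revert i; decide

theorem lon_eq (i : Fin 3) : cl S P att (longitude i) =
    xx S P att (i + 2) * aa S P att i * (xx S P att (i + 2))⁻¹ := by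
  unfold longitude
  rw [map_mul, map_inv, mer_eq, idx]
  unfold aa
  show xx S P att (i + 2) * _ = _
  group

theorem comm_xa (i : Fin 3) : Commute (xx S P att i) (aa S P att i) := by
  have h := cl_outer (S := S) (P := P) (att := att) i
  unfold outer at h
  rw [map_mul, map_mul, map_mul, map_inv, map_inv, mul_inv_eq_one, mer_eq, mer_eq, idx] at h
  change xx S P att (i + 1) * xx S P att (i + 2) * (xx S P att (i + 1))⁻¹ * xx S P att i *
    (xx S P att (i + 1) * xx S P att (i + 2) * (xx S P att (i + 1))⁻¹)⁻¹ = _ at h
  unfold aa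
  generalize xx S P att i = u at h ⊢
  generalize xx S P att (i + 1) = v at h ⊢
  generalize xx S P att (i + 2) = w at h ⊢
  have h1 : v * w * v⁻¹ * u = w * u * w⁻¹ * (v * w * v⁻¹) := by
    rw [← h]; group
  have h2 : (v * w⁻¹ * v⁻¹ * w) * u = u * (v * w⁻¹ * v⁻¹ * w) := by
    have h3 : (v * w * v⁻¹)⁻¹ * (v * w * v⁻¹ * u) * (v * w * v⁻¹)⁻¹ * w
        = (v * w * v⁻¹)⁻¹ * (w * u * w⁻¹ * (v * w * v⁻¹)) * (v * w * v⁻¹)⁻¹ * w := by
      rw [h1]
    calc (v * w⁻¹ * v⁻¹ * w) * u
        = (v * w * v⁻¹)⁻¹ * (w * u * w⁻¹ * (v * w * v⁻¹)) * (v * w * v⁻¹)⁻¹ * w := by group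
      _ = (v * w * v⁻¹)⁻¹ * (v * w * v⁻¹ * u) * (v * w * v⁻¹)⁻¹ * w := h3.symm
      _ = u * (v * w⁻¹ * v⁻¹ * w) := by group
  exact h2.symm

theorem comm_ml (i : Fin 3) :
    Commute (cl S P att (arc i false)) (cl S P att (longitude i)) := by
  rw [mer_eq, lon_eq]
  have h := (comm_xa (S := S) (P := P) (att := att) i).eq
  show _ * _ = _ * _
  generalize xx S P att i = u at h ⊢
  generalize aa S P att i = a at h ⊢
  generalize xx S P att (i + 2) = w
  calc w * u * w⁻¹ * (w * a * w⁻¹) = w * (u * a) * w⁻¹ := by group
    _ = w * (a * u) * w⁻¹ := by rw [h]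
    _ = _ := by group

/-- The relations of the Borromean rings. -/
theorem bor (S : Set (Fin 3)) (P : Fin 3 → Pres) (att : Fin 3 → Filling) :
    Bor (PresentedGroup (build S P att).rel) (xx S P att 0)⁻¹ (xx S P att 1)⁻¹
      (xx S P att 2)⁻¹ (aa S P att 0) (aa S P att 1) (aa S P att 2) := by
  refine ⟨(comm_xa 0).inv_left, ?_, ?_, ?_⟩
  · show _ * (xx S P att 1 * (xx S P att 2)⁻¹ * (xx S P att 1)⁻¹ * xx S P att 2 * _) = _
    group
  · show _ * (xx S P att 2 * (xx S P att 0)⁻¹ * (xx S P att 2)⁻¹ * xx S P att 0 * _) = _
    group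
  · show _ * (xx S P att 0 * (xx S P att 1)⁻¹ * (xx S P att 0)⁻¹ * xx S P att 1 * _) = _
    group

variable {X : Type u} [CompleteLinearOrder X]

theorem word_eq {G : Type} [Group G] {μ l : G} (h : Commute μ l) (a b : ℤ) :
    (μ ^ a * l ^ b)⁻¹ = μ⁻¹ ^ a * l ^ (-b) := by
  rw [(h.zpow_zpow a b).eq, mul_inv_rev, inv_zpow, zpow_neg]

/-- A solid torus or a piece caps a component. -/
theorem cap (ρ : PresentedGroup (build S P att).rel →* (X ≃o X)) {i : Fin 3}
    (hi : i ∈ S) (hk : Known.{u} (att i) (P i)) :
    Dom (ρ (xx S P att i)⁻¹) (ρ (aa S P att i)) ∧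
      ((∀ p, (∀ j, ρ (xx S P att j)⁻¹ p = p) → ∀ g : PresentedGroup (P i).rel,
        ρ (iota att ⟨i, hi⟩ g) p = p)) := by
  have hg := fun w => cl_glue (att := att) (P := P) (⟨i, hi⟩ : S) (w := w)
  have hcm := comm_ml (S := S) (P := P) (att := att) i
  have red : Dom (ρ (cl S P att (arc i false))⁻¹) (ρ (cl S P att (longitude i))) →
      Dom (ρ (xx S P att i)⁻¹) (ρ (aa S P att i)) := by
    intro h
    rw [mer_eq, lon_eq] at h
    have h1 := dom_conj h (ρ (xx S P att (i + 2)))⁻¹
    have e1 : (ρ (xx S P att (i + 2)))⁻¹ *
        ρ (xx S P att (i + 2) * xx S P att i * (xx S P att (i + 2))⁻¹)⁻¹ *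
        (ρ (xx S P att (i + 2)))⁻¹⁻¹ = ρ (xx S P att i)⁻¹ := by
      rw [← map_inv, ← map_inv, ← map_mul, ← map_mul]
      congr 1; group
    have e2 : (ρ (xx S P att (i + 2)))⁻¹ *
        ρ (xx S P att (i + 2) * aa S P att i * (xx S P att (i + 2))⁻¹) *
        (ρ (xx S P att (i + 2)))⁻¹⁻¹ = ρ (aa S P att i) := by
      rw [← map_inv, ← map_inv, ← map_mul, ← map_mul]
      congr 1; group
    rwa [e1, e2] at h1
  have hc : Commute (ρ (cl S P att (arc i false))) (ρ (cl S P att (longitude i))) := by
    show _ * _ = _ * _
    rw [← map_mul, hcm.eq, map_mul]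
  change ∀ w, w ∈ glue (arc i false) (longitude i) (incl (⟨i, hi⟩ : S) (P i).mer)
    (incl (⟨i, hi⟩ : S) (P i).lon) (att i) → _ at hg
  rcases ha : att i with ⟨p, q⟩ | ⟨a, b, c, d, att'⟩
  · rw [ha] at hk hg
    refine ⟨red ?_, fun t _ g => ?_⟩
    · rw [map_inv]
      refine dom_solid (p := -p) (q := q) hc.inv_left hk.1.1 hk.1.2 ?_
      have h1 := congrArg ρ (hg _ rfl)
      rw [map_mul, map_zpow, map_zpow, map_mul, map_zpow, map_zpow, map_one] at h1
      rw [inv_zpow', neg_neg]
      exact h1
    · have he : IsEmpty (P i).gen := hk.2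
      have h1 : g = 1 := by
        obtain ⟨w, rfl⟩ := PresentedGroup.mk_surjective (rels := (P i).rel) g
        have h2 : w = 1 := Subsingleton.elim _ _
        rw [h2, map_one]
      rw [h1, map_one, map_one]; rfl
  · rw [ha] at hk hg
    obtain ⟨hM, hT⟩ := hk
    have hpc : Commute (PresentedGroup.mk (P i).rel (P i).mer) (PresentedGroup.mk (P i).rel (P i).lon) := by
      have := hT.comm.inv_left
      rwa [inv_inv] at this
    have h1 : (cl S P att (arc i false))⁻¹ =
        iota att ⟨i, hi⟩ ((PresentedGroup.mk (P i).rel (P i).mer)⁻¹ ^ a *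
        PresentedGroup.mk (P i).rel (P i).lon ^ (-b)) := by
      have h := hg _ (Or.inl rfl)
      rw [map_mul, map_inv, mul_inv_eq_one, map_mul, map_zpow, map_zpow] at h
      rw [← word_eq hpc, map_inv, map_mul, map_zpow, map_zpow, iota_mk, iota_mk, h]
    have h2 : cl S P att (longitude i) = iota att ⟨i, hi⟩
        ((PresentedGroup.mk (P i).rel (P i).mer)⁻¹ ^ (-c) * PresentedGroup.mk (P i).rel (P i).lon ^ d) := by
      have h := hg _ (Or.inr rfl)
      rw [map_mul, map_inv, mul_inv_eq_one, map_mul, map_zpow, map_zpow] at h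
      rw [inv_zpow', neg_neg, map_mul, map_zpow, map_zpow, iota_mk, iota_mk]
      exact h
    refine ⟨red ?_, fun t ht g => ?_⟩
    · rw [h1, h2]
      exact hT.dom X (ρ.comp (iota att ⟨i, hi⟩)) _ _ _ _ hM
    · refine hT.fix X (ρ.comp (iota att ⟨i, hi⟩)) a (-b) (-c) d hM t ?_ g
      show ρ (iota att ⟨i, hi⟩ _) t = t
      rw [← h1, mer_eq]
      have e : (xx S P att (i + 2) * xx S P att i * (xx S P att (i + 2))⁻¹)⁻¹ =
          ((xx S P att (i + 2))⁻¹)⁻¹ * (xx S P att i)⁻¹ * (xx S P att (i + 2))⁻¹ := by group
      rw [e, map_mul, map_mul, map_inv ρ (xx S P att (i + 2))⁻¹]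
      show (ρ (xx S P att (i + 2))⁻¹)⁻¹ (ρ (xx S P att i)⁻¹ (ρ (xx S P att (i + 2))⁻¹ t)) = t
      rw [ht, ht]
      exact symm_fix (ht (i + 2))

/-- A point fixed by all meridians is fixed by the group. -/
theorem gen (hk : ∀ i ∈ S, Known.{u} (att i) (P i))
    (ρ : PresentedGroup (build S P att).rel →* (X ≃o X)) {x : X}
    (ho : ∀ i : Fin 3, ρ (xx S P att i)⁻¹ x = x) (g) : ρ g x = x := by
  let K : Subgroup (PresentedGroup (build S P att).rel) :=
    (MulAction.stabilizer (X ≃o X) x).comap ρ
  have hx : ∀ i, xx S P att i ∈ K := fun i => by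
    have : (xx S P att i)⁻¹ ∈ K := ho i
    exact K.inv_mem_iff.mp this
  suffices h : K = ⊤ by
    have : g ∈ K := by rw [h]; exact Subgroup.mem_top g
    exact this
  rw [eq_top_iff, ← PresentedGroup.closure_range_of]
  rw [Subgroup.closure_le]
  rintro _ ⟨g, rfl⟩
  rcases g with ⟨i, _ | _⟩ | ⟨⟨i, hi⟩, g⟩
  · show cl S P att (arc i false) ∈ K
    rw [mer_eq]
    exact K.mul_mem (K.mul_mem (hx _) (hx _)) (K.inv_mem (hx _))
  · exact hx i
  · have h4 := (cap ρ hi (hk i hi)).2 x ho (PresentedGroup.of g)
    have h5 : iota att (⟨i, hi⟩ : S) (PresentedGroup.of g) =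
        PresentedGroup.of (Sum.inr ⟨⟨i, hi⟩, g⟩ : LGen S P) := by
      rw [iota, PresentedGroup.toGroup.of]
      rfl
    rw [h5] at h4
    exact h4

/-- The group of a good piece is tame. -/
theorem known (K : Filling) : K.Good → Known.{u} K K.pres := by
  induction K with
  | solid p q => exact fun h => ⟨⟨h.1, slope h.1 h.2⟩, inferInstanceAs (IsEmpty Empty)⟩
  | piece a b c d att ih =>
    rintro ⟨hG, hi⟩
    have hk : ∀ i ∈ {i : Fin 3 | i ≠ 0}, Known.{u} (att i) (att i).pres :=
      fun i hi' => ih i (hi i hi')
    refine ⟨hG.good, ?_⟩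
    have hp := (bor {i | i ≠ 0} (fun i => (att i).pres) att).piece
      (fun X _ ρ => (cap ρ (i := 1) (show (1 : Fin 3) ≠ 0 by decide) (hk 1 (by decide))).1)
      (fun X _ ρ => (cap ρ (i := 2) (show (2 : Fin 3) ≠ 0 by decide) (hk 2 (by decide))).1)
      (fun X _ ρ p h0 h1 h2 => gen hk ρ (fun i => by fin_cases i <;> assumption))
    have hc := hp.conj (xx {i | i ≠ 0} (fun i => (att i).pres) att 2)
    have ht := hc.tame
    have e1 : xx {i | i ≠ 0} (fun i => (att i).pres) att 2 *
        (xx {i | i ≠ 0} (fun i => (att i).pres) att 0)⁻¹ *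
        (xx {i | i ≠ 0} (fun i => (att i).pres) att 2)⁻¹ =
        (cl {i | i ≠ 0} (fun i => (att i).pres) att (arc 0 false))⁻¹ := by
      rw [mer_eq]
      show _ = (xx {i | i ≠ 0} (fun i => (att i).pres) att 2 * _ *
        (xx {i | i ≠ 0} (fun i => (att i).pres) att 2)⁻¹)⁻¹
      group
    have e2 : xx {i | i ≠ 0} (fun i => (att i).pres) att 2 *
        aa {i | i ≠ 0} (fun i => (att i).pres) att 0 *
        (xx {i | i ≠ 0} (fun i => (att i).pres) att 2)⁻¹ =
        cl {i | i ≠ 0} (fun i => (att i).pres) att (longitude 0) := by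
      rw [lon_eq]; rfl
    rw [e1, e2] at ht
    exact ht

/-- Every action of the group of a closed manifold on a complete linear order is trivial. -/
theorem act_trivial (hg : ∀ i, (att i).Good) (ρ : ClosedGroup att →* (X ≃o X))
    (g : ClosedGroup att) (x : X) : ρ g x = x := by
  have hk : ∀ i, Known.{u} (att i) (att i).pres := fun i => known (att i) (hg i)
  have hp := (bor Set.univ (fun i => (att i).pres) att).piece
    (fun X _ ρ => (cap ρ (i := 1) (Set.mem_univ _) (hk 1)).1)
    (fun X _ ρ => (cap ρ (i := 2) (Set.mem_univ _) (hk 2)).1)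
    (fun X _ ρ p h0 h1 h2 => gen (fun i _ => hk i) ρ (fun i => by fin_cases i <;> assumption))
  exact hp.closed X ρ (cap ρ (i := 0) (Set.mem_univ _) (hk 0)).1 g x

open Pool.Agent.W705.Borr in
theorem hom_trivial (hg : ∀ i, (att i).Good) (H : Type u) [Group H] (hH : LeftOrderable H)
    (f : ClosedGroup att →* H) (g : ClosedGroup att) : f g = 1 := by
  classical
  obtain ⟨_, lt, hlt, hinv⟩ := hH
  let _ : LinearOrder H := linearOrderOfSTO lt
  have hinv' : ∀ a b c : H, a ≤ b ↔ c * a ≤ c * b := by
    intro a b c
    show (a = b ∨ lt a b) ↔ (c * a = c * b ∨ lt (c * a) (c * b))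
    rw [mul_right_inj, ← hinv]
  let α : H →* (LowerSet H ≃o LowerSet H) :=
    { toFun := fun g => act hinv' g
      map_one' := OrderIso.ext (funext fun v => act_one hinv' v)
      map_mul' := fun g h => OrderIso.ext (funext fun v => act_mul hinv' g h v) }
  exact eq_one_of_act hinv' _ fun v => act_trivial hg (α.comp f) g v

theorem not_lo {G : Type} [Group G]
    (h : ∀ (H : Type) [Group H], LeftOrderable H → ∀ f : G →* H, ∀ g, f g = 1) :
    ¬ LeftOrderable G := by
  intro hG
  obtain ⟨a, b, hab⟩ := hG.1
  have key := h G hG (MonoidHom.id _)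
  have h1 := key a
  have h2 := key b
  simp only [MonoidHom.id_apply] at h1 h2
  exact hab (by rw [h1, h2])

end proof

/-- The fundamental group of a closed manifold glued from exteriors of the Borromean rings as
described is not left-orderable, and every homomorphism from it to a left-orderable group is
trivial. -/
theorem result (att : Fin 3 → Filling) (hg : ∀ i, (att i).Good) :
    ¬ LeftOrderable (ClosedGroup att) ∧
    ∀ (H : Type u) [Group H], LeftOrderable H → ∀ f : ClosedGroup att →* H, ∀ g, f g = 1 :=
  ⟨not_lo fun H _ hH f g => hom_trivial hg H hH f g,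
    fun H _ hH f g => hom_trivial hg H hH f g⟩

end Pool.Agent.Results.MP_9ae2f3_gt.TreesOfBorromeanRings
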